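import Pool.Agent.TH602.Turan.Drop
import Mathlib.Combinatorics.SimpleGraph.Extremal.Basic

/-!
# The bound of Kővári, Sós and Turán, uniform in `t`
-/

set_option autoImplicit false

namespace Pool.Agent.Y684.ZL

open Finset

theorem upper (s t n : ℕ) (hs : 1 ≤ s) (ht : 1 ≤ t) (hn : 1 ≤ n) :
    (SimpleGraph.extremalNumber n (completeBipartiteGraph (Fin s) (Fin t)) : ℝ) ≤
      4 * s * ((t : ℝ) ^ (1 / (s : ℝ)) * (n : ℝ) ^ (2 - 1 / (s : ℝ))) := by
  classical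
  have hs0 : (0 : ℝ) < s := by exact_mod_cast (by omega : 0 < s)
  have ht0 : (0 : ℝ) < t := by exact_mod_cast (by omega : 0 < t)
  have hn0 : (0 : ℝ) < n := by exact_mod_cast (by omega : 0 < n)
  have hX : (0 : ℝ) ≤ 4 * s * ((t : ℝ) ^ (1 / (s : ℝ)) * (n : ℝ) ^ (2 - 1 / (s : ℝ))) := by
    positivity
  have key := (SimpleGraph.extremalNumber_le_iff_of_nonneg (V := Fin n)
    (completeBipartiteGraph (Fin s) (Fin t)) hX).2
  rw [Fintype.card_fin] at key
  apply key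
  intro G _ hG
  set L : Finset (Fin n × Fin n) := univ.filter fun p => G.Adj p.1 p.2 with hL
  have hcard : 2 * #G.edgeFinset = #L := G.two_mul_card_edgeFinset
  have h1 := Pool.Agent.TH602.Turan.kst L s t hs ht (by
    intro S T hS hT hST
    apply hG
    rw [SimpleGraph.completeBipartiteGraph_isContained_iff]
    refine ⟨S, T, by rw [hS, Fintype.card_fin], by rw [hT, Fintype.card_fin], ?_⟩
    intro v hv w hw
    exact (mem_filter.1 (hST v hv w hw)).2)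
  rw [Fintype.card_fin] at h1
  set e := #G.edgeFinset with he
  rw [← hcard] at h1
  have h2 : ((2 : ℝ) * e) ^ s ≤ (2 * s) ^ s * t * (2 * n) ^ (2 * s - 1) := by
    have : (((2 * e) ^ s : ℕ) : ℝ) ≤ (((2 * s) ^ s * t * (n + n) ^ (2 * s - 1) : ℕ) : ℝ) := by
      exact_mod_cast h1
    push_cast at this
    rw [← two_mul] at this
    exact this
  have h3 : ((2 : ℝ) * n) ^ (2 * s - 1) ≤ 2 ^ (2 * s) * (n : ℝ) ^ (2 * s - 1) := by
    rw [mul_pow]
    apply mul_le_mul_of_nonneg_right _ (by positivity)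
    exact pow_le_pow_right₀ (by norm_num) (by omega)
  have h4 : ((4 : ℝ) * s * ((t : ℝ) ^ (1 / (s : ℝ)) * (n : ℝ) ^ (2 - 1 / (s : ℝ)))) ^ s =
      (4 * s) ^ s * t * (n : ℝ) ^ (2 * s - 1) := by
    have a1 : ((t : ℝ) ^ (1 / (s : ℝ))) ^ s = t := by
      rw [← Real.rpow_natCast, ← Real.rpow_mul ht0.le, one_div_mul_cancel hs0.ne', Real.rpow_one]
    have a2 : ((n : ℝ) ^ (2 - 1 / (s : ℝ))) ^ s = (n : ℝ) ^ (2 * s - 1) := by
      rw [← Real.rpow_natCast, ← Real.rpow_mul hn0.le, ← Real.rpow_natCast]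
      congr 1
      rw [Nat.cast_sub (by omega)]
      push_cast
      field_simp
    rw [mul_pow (4 * (s : ℝ)), mul_pow ((t : ℝ) ^ (1 / (s : ℝ))), a1, a2, mul_assoc]
  have h5 : (e : ℝ) ^ s ≤ (4 * s * ((t : ℝ) ^ (1 / (s : ℝ)) * (n : ℝ) ^ (2 - 1 / (s : ℝ)))) ^ s := by
    rw [h4]
    have h6 : (2 : ℝ) ^ s * (e : ℝ) ^ s ≤ 2 ^ s * ((4 * s) ^ s * t * (n : ℝ) ^ (2 * s - 1)) := by
      calc (2 : ℝ) ^ s * (e : ℝ) ^ s = (2 * e) ^ s := by rw [mul_pow]
        _ ≤ (2 * s) ^ s * t * (2 * n) ^ (2 * s - 1) := h2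
        _ ≤ (2 * s) ^ s * t * (2 ^ (2 * s) * (n : ℝ) ^ (2 * s - 1)) :=
            mul_le_mul_of_nonneg_left h3 (by positivity)
        _ = 2 ^ s * ((4 * s) ^ s * t * (n : ℝ) ^ (2 * s - 1)) := by
            rw [mul_pow 2 (s : ℝ), mul_pow 4 (s : ℝ), pow_mul]
            norm_num
            ring
    exact le_of_mul_le_mul_left h6 (by positivity)
  exact le_of_pow_le_pow_left₀ (by omega) hX h5

end Pool.Agent.Y684.ZL
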