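import Pool.Agent.W834.NG.Sol
import Pool.Agent.W834.NG.Graph

/-!
# Window norm graphs

The vertices are the pairs `(x, k)`, `x` in a finite field `K`, `k < B`; two different vertices
`(x, k)`, `(y, k')` are adjacent if the norm of `x + y` is one of the `h` powers `g ^ (h (k + k') + e)`,
`e < h`, where `g` generates the group of norms.
-/

set_option autoImplicit false

namespace Pool.Agent.Y684.ZL

open Pool.Agent.W834.NG

/-- `m + 1` norm equations have at most `m !` common solutions (Alon, Kollár, Rónyai, Szabó) -/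
theorem norm_sol {K : Type} [Field K] {m : ℕ} (hm : 0 < m) (φ : K →+* K) (c : Fin (m + 1) → K)
    (hc : Function.Injective c) (a : Fin (m + 1) → K) (S : Finset K) (b : K → K)
    (hS : ∀ s ∈ S, ∀ i, ∏ j : Fin m, φ^[j] (s + c i) = a i * b s) : S.card ≤ m.factorial := by
  classical
  refine (card_le_F hm φ c a Finset.univ S b (fun s hs i _ => hS s hs i)).trans ?_
  obtain ⟨n, rfl⟩ : ∃ n, m = n + 1 := ⟨m - 1, by omega⟩
  refine F_triv _ n Finset.univ ?_ ?_ Finset.univ ∅ ?_ ?_
  · intro k i _ i' _ h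
    apply hc
    have hinj : Function.Injective (φ^[(k : ℕ)]) := Function.Injective.iterate φ.injective k
    exact hinj h
  · simp
  · exact Finset.disjoint_empty_right _
  · simp

/-- the window norm graph -/
def WG {K : Type} [Field K] (φ : K →+* K) (m : ℕ) (g : K) (h B : ℕ) : SimpleGraph (K × Fin B) where
  Adj u v := u ≠ v ∧ ∃ e < h, Nm φ m (u.1 + v.1) = g ^ (h * (u.2 + v.2) + e)
  symm := ⟨fun u v hh => by
    obtain ⟨h1, e, he, h2⟩ := hh
    exact ⟨h1.symm, e, he, by rw [add_comm v.1, h2, add_comm (u.2 : ℕ)]⟩⟩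
  loopless := ⟨fun _ hh => hh.1 rfl⟩

variable {K : Type} [Field K] (φ : K →+* K) (m : ℕ) (g : K) (h B : ℕ)

theorem win_ne (hg : ∀ u v : ℕ, u < v → v < u + h * B → g ^ u ≠ g ^ v) {a b k e e' : ℕ}
    (hb : b < B) (hab : a < b) (he : e < h) (he' : e' < h) :
    g ^ (h * (a + k) + e) ≠ g ^ (h * (b + k) + e') := by
  have h1 : h * (a + 1) ≤ h * b := Nat.mul_le_mul_left _ hab
  have h2 : h * (b + 1) ≤ h * B := Nat.mul_le_mul_left _ hb
  have e1 : h * (a + 1) = h * a + h := by ring
  have e2 : h * (b + 1) = h * b + h := by ring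
  have e3 : h * (a + k) = h * a + h * k := by ring
  have e4 : h * (b + k) = h * b + h * k := by ring
  have e5 : 0 ≤ h * a := Nat.zero_le _
  apply hg
  · rw [e3, e4]; omega
  · rw [e3, e4]; omega

/-- different vertices with the same first coordinate have no common neighbour -/
theorem fst_ne (hg : ∀ u v : ℕ, u < v → v < u + h * B → g ^ u ≠ g ^ v)
    {u v w : K × Fin B} (huw : (WG φ m g h B).Adj u w) (hvw : (WG φ m g h B).Adj v w)
    (huv : u ≠ v) : u.1 ≠ v.1 := by
  intro h1
  obtain ⟨-, e, he, h2⟩ := huw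
  obtain ⟨-, e', he', h3⟩ := hvw
  rw [h1, h3] at h2
  rcases lt_trichotomy (u.2 : ℕ) (v.2 : ℕ) with hlt | heq | hgt
  · exact win_ne g h B hg v.2.2 hlt he he' h2.symm
  · exact huv (Prod.ext h1 (Fin.ext heq))
  · exact win_ne g h B hg u.2.2 hgt he' he h2

open Classical in
/-- functions with a zero -/
noncomputable def WW (m h : ℕ) : Finset (Fin (m + 1) → ℕ) :=
  (Fintype.piFinset fun _ => Finset.range h) \
    (Fintype.piFinset fun _ => (Finset.range h).filter (· ≠ 0))

theorem WW_card (m h : ℕ) (hh : 1 ≤ h) : (WW m h).card = h ^ (m + 1) - (h - 1) ^ (m + 1) := by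
  classical
  unfold WW
  rw [Finset.card_sdiff_of_subset, Fintype.card_piFinset, Fintype.card_piFinset]
  · simp only [Finset.card_range, Finset.prod_const, Finset.card_univ, Fintype.card_fin]
    congr 2
    rw [Finset.filter_ne', Finset.card_erase_of_mem (Finset.mem_range.2 hh), Finset.card_range]
  · exact Fintype.piFinset_subset _ _ fun _ => Finset.filter_subset _ _

theorem mem_WW {m h : ℕ} {w : Fin (m + 1) → ℕ} (h1 : ∀ i, w i < h) (h2 : ∃ i, w i = 0) :
    w ∈ WW m h := by
  classical
  unfold WW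
  rw [Finset.mem_sdiff, Fintype.mem_piFinset, Fintype.mem_piFinset]
  refine ⟨fun i => Finset.mem_range.2 (h1 i), fun h3 => ?_⟩
  obtain ⟨i, hi⟩ := h2
  exact (Finset.mem_filter.1 (h3 i)).2 hi

/-- `m + 1` vertices have at most `m ! (h ^ (m + 1) - (h - 1) ^ (m + 1))` common neighbours -/
theorem WG_noK (hm : 0 < m) (hh : 1 ≤ h)
    (hg : ∀ u v : ℕ, u < v → v < u + h * B → g ^ u ≠ g ^ v) :
    NoK (WG φ m g h B) (m + 1) (m.factorial * (h ^ (m + 1) - (h - 1) ^ (m + 1)) + 1) := by
  classical
  obtain ⟨r, hr⟩ : ∃ r, r = m.factorial * (h ^ (m + 1) - (h - 1) ^ (m + 1)) + 1 := ⟨_, rfl⟩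
  rw [← hr]
  rintro ⟨x, y, hx, hy, hadj⟩
  have hr0 : 0 < r := by omega
  have hx1 : Function.Injective (fun i => (x i).1) := by
    intro i k hik
    by_contra hne
    exact fst_ne φ m g h B hg (hadj i ⟨0, hr0⟩) (hadj k ⟨0, hr0⟩) (fun h => hne (hx h)) hik
  have hy1 : Function.Injective (fun j => (y j).1) := by
    intro j k hjk
    by_contra hne
    exact fst_ne φ m g h B hg (hadj 0 j).symm (hadj 0 k).symm (fun h => hne (hy h)) hjk
  choose e he hN using fun i j => (hadj i j).2
  -- the minimum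
  have hmin : ∀ j, ∃ μ : ℕ, (∀ i, μ ≤ e i j) ∧ ∃ i, e i j = μ := by
    intro j
    obtain ⟨i, -, hi⟩ := Finset.exists_min_image Finset.univ (fun i => e i j) ⟨0, Finset.mem_univ _⟩
    exact ⟨e i j, fun k => hi k (Finset.mem_univ _), i, rfl⟩
  choose μ hμ1 hμ2 using hmin
  let f : Fin r → (Fin (m + 1) → ℕ) := fun j i => e i j - μ j
  have hfW : ∀ j, f j ∈ WW m h := by
    intro j
    refine mem_WW (fun i => lt_of_le_of_lt (Nat.sub_le _ _) (he i j)) ?_
    obtain ⟨i, hi⟩ := hμ2 j
    exact ⟨i, by show e i j - μ j = 0; omega⟩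
  have hfib : ∀ w ∈ (Finset.univ : Finset (Fin r)).image f,
      ((Finset.univ : Finset (Fin r)).filter (fun j => f j = w)).card ≤ m.factorial := by
    intro w _
    set J := (Finset.univ : Finset (Fin r)).filter (fun j => f j = w) with hJ
    let b : K → K := fun s => if hs : ∃ j, (y j).1 = s then
      g ^ (h * ((y hs.choose).2 : ℕ) + μ hs.choose) else 0
    have hb : ∀ j, b (y j).1 = g ^ (h * ((y j).2 : ℕ) + μ j) := by
      intro j
      have hs : ∃ k, (y k).1 = (y j).1 := ⟨j, rfl⟩
      have hc : hs.choose = j := hy1 hs.choose_spec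
      simp only [b]
      rw [dif_pos hs, hc]
    have := norm_sol hm φ (fun i => (x i).1) hx1 (fun i => g ^ (h * ((x i).2 : ℕ) + w i))
      (J.image fun j => (y j).1) b (by
        intro s hs i
        obtain ⟨j, hj, rfl⟩ := Finset.mem_image.1 hs
        have hjw : f j = w := (Finset.mem_filter.1 hj).2
        have h1 : Nm φ m ((x i).1 + (y j).1) = _ := hN i j
        have h2 : w i + μ j = e i j := by
          rw [← hjw]
          show e i j - μ j + μ j = _
          have := hμ1 j i
          omega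
        show Nm φ m ((y j).1 + (x i).1) = _
        rw [hb, add_comm, h1, ← pow_add, ← h2]
        congr 1
        ring)
    rwa [Finset.card_image_of_injective _ hy1] at this
  have h1 := Finset.card_le_mul_card_image (Finset.univ : Finset (Fin r)) m.factorial hfib
  have h2 : ((Finset.univ : Finset (Fin r)).image f).card ≤ (WW m h).card :=
    Finset.card_le_card (Finset.image_subset_iff.2 fun j _ => hfW j)
  rw [WW_card m h hh] at h2
  rw [Finset.card_univ, Fintype.card_fin] at h1
  have h3 := Nat.mul_le_mul_left m.factorial h2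
  omega

end Pool.Agent.Y684.ZL
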